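import Pool.Agent.helper35.BQ.Spec

set_option autoImplicit false

open Pool.Agent.helper58.DC Pool.Agent.DI Pool.Agent.DR Pool.Agent.NQ
open scoped Pointwise

namespace Pool.Agent.BQ

/-- the trivial character is irreducible -/
theorem AUT_one (G : Type) [Group G] : (fun _ : G => (1 : ℂ)) ∈ Irr G := by
  refine ⟨ℂ, inferInstance, inferInstance, inferInstance, Representation.trivial ℂ G ℂ, ?_, ?_⟩
  · refine { exists_pair_ne := ⟨⊥, ⊤, ?_⟩, eq_bot_or_eq_top := ?_ }
    · intro h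
      have h1 : (1 : ℂ) ∈ (⊤ : Subrepresentation (Representation.trivial ℂ G ℂ)) := trivial
      rw [← h] at h1
      have h2 : (1 : ℂ) ∈ (⊥ : Submodule ℂ ℂ) := h1
      exact one_ne_zero ((Submodule.mem_bot ℂ).1 h2)
    · intro S
      rcases eq_bot_or_eq_top S.toSubmodule with h | h
      · exact Or.inl (Subrepresentation.toSubmodule_injective h)
      · exact Or.inr (Subrepresentation.toSubmodule_injective h)
  · funext g
    unfold Representation.character
    have h1 : Representation.trivial ℂ G ℂ g = LinearMap.id := by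
      ext
      simp
    rw [h1, LinearMap.trace_id]
    simp

/-- the automorphisms which map `S` onto `S` -/
def AUT_stab {G : Type} [Group G] (S : Subgroup G) : Subgroup (MulAut G) where
  carrier := {α | ∀ x, α x ∈ S ↔ x ∈ S}
  mul_mem' := by
    intro α β hα hβ x
    rw [MulAut.mul_apply]
    exact (hα _).trans (hβ x)
  one_mem' := fun x => Iff.rfl
  inv_mem' := by
    intro α hα x
    have h := hα (α⁻¹ x)
    rw [MulAut.apply_inv_self] at h
    exact h.symm

/-- restriction of automorphisms -/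
def AUT_res {G : Type} [Group G] (S : Subgroup G) : AUT_stab S →* MulAut S where
  toFun α :=
    { toFun := fun x => ⟨α.1 x, (α.2 x).2 x.2⟩
      invFun := fun x => ⟨(α⁻¹).1 x, ((α⁻¹).2 x).2 x.2⟩
      left_inv := fun x => Subtype.ext (MulAut.inv_apply_self G α.1 x)
      right_inv := fun x => Subtype.ext (MulAut.apply_inv_self G α.1 x)
      map_mul' := fun x y => Subtype.ext (map_mul α.1 (x : G) y) }
  map_one' := by
    ext x
    rfl
  map_mul' α β := by
    ext x
    rfl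

theorem AUT_res_apply {G : Type} [Group G] (S : Subgroup G) (α : AUT_stab S) (x : S) :
    ((AUT_res S α x : S) : G) = α.1 x := rfl

theorem AUT_act_inc {G E A : Type} [Group G] [Group E] [Group A] (X : Extension G E A) (g : G) :
    X.act (X.inc g) = MulAut.conj g := by
  ext x
  apply X.inc_injective
  rw [X.act_spec, MulAut.conj_apply, map_mul, map_mul, map_inv]

theorem AUT_top {G E A : Type} [Group G] [Group E] [Group A] (X : Extension G E A)
    (M : Ideal (integralClosure ℤ ℂ)) (a : A) : a ∈ AB X M (fun _ : G => (1 : ℂ)) := by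
  obtain ⟨e, rfl⟩ := X.proj_surjective a
  refine ⟨e, rfl, fun g => ⟨0, M.zero_mem, ?_⟩⟩
  have h : funMap (X.act e) (fun _ : G => (1 : ℂ)) = fun _ => 1 := rfl
  rw [h, sub_self]
  rfl

/-- Frattini argument -/
theorem AUT_frattini {G E A : Type} [Group G] [Group E] [Group A] [Finite G]
    (X : Extension G E A) (p : ℕ) [Fact p.Prime] (S : Sylow p G) (a : A) :
    ∃ e : E, X.proj e = a ∧ X.act e ∈ AUT_stab (S : Subgroup G) := by
  obtain ⟨e, rfl⟩ := X.proj_surjective a
  obtain ⟨g, hg⟩ := MulAction.exists_smul_eq G S (X.act e • S)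
  refine ⟨X.inc g⁻¹ * e, ?_, ?_⟩
  · rw [map_mul, (X.exact _).2 ⟨g⁻¹, rfl⟩, one_mul]
  · have h1 : X.act (X.inc g⁻¹ * e) • S = S := by
      rw [map_mul, mul_smul, ← hg, AUT_act_inc, Sylow.smul_def, ← mul_smul, ← map_mul,
        inv_mul_cancel, map_one, one_smul]
    intro x
    have h2 : X.act (X.inc g⁻¹ * e) • (S : Subgroup G) = (S : Subgroup G) := by
      rw [← Sylow.pointwise_smul_def, h1]
    constructor
    · intro h3
      rw [← h2] at h3
      exact (Subgroup.smul_mem_pointwise_smul_iff (a := X.act (X.inc g⁻¹ * e))).1 h3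
    · intro h3
      rw [← h2]
      exact (Subgroup.smul_mem_pointwise_smul_iff (a := X.act (X.inc g⁻¹ * e))).2 h3

/-- **AUT** -/
theorem AUT (hPRI : PRI_stmt) (hNRM : NRM_stmt) (hB0 : B0_stmt) : AUT_stmt := by
  intro G E A _ _ _ _ _ X p _ M hM hpM S hS
  obtain ⟨P₀, hP₀, hcyc⟩ := hS
  have hP₀n : P₀.Normal := hcyc.1
  set AI0 := AI X M (fun _ : G => (1 : ℂ)) with hAI0
  have hAIn : AI0.Normal :=
    ⟨fun n hn g => hNRM G E A X M _ (AUT_one G) g (AUT_top X M g) n hn⟩
  -- the stabiliser of `S` in `E` and its action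
  let T : Subgroup E := (AUT_stab (S : Subgroup G)).comap X.act
  let τ : T →* MulAut S := (AUT_res (S : Subgroup G)).comp
    ((X.act.comp T.subtype).codRestrict (AUT_stab (S : Subgroup G)) fun t => t.2)
  have hτ : ∀ (t : T) (s : S), ((τ t s : S) : G) = X.act t s := fun t s => rfl
  let Z : Subgroup A := ((P₀.comap τ).map T.subtype).map X.proj
  have hZ : ∀ z, z ∈ Z ↔ ∃ t : T, τ t ∈ P₀ ∧ X.proj t = z := by
    intro z
    constructor
    · rintro ⟨e, ⟨t, ht, rfl⟩, rfl⟩
      exact ⟨t, ht, rfl⟩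
    · rintro ⟨t, ht, rfl⟩
      exact ⟨t, ⟨t, ht, rfl⟩, rfl⟩
  have hfr : ∀ a : A, ∃ t : T, X.proj t = a := by
    intro a
    obtain ⟨e, he, he'⟩ := AUT_frattini X p S a
    exact ⟨⟨e, he'⟩, he⟩
  have hZn : Z.Normal := by
    refine ⟨fun z hz a => ?_⟩
    obtain ⟨y, hy, rfl⟩ := (hZ z).1 hz
    obtain ⟨t, rfl⟩ := hfr a
    refine (hZ _).2 ⟨t * y * t⁻¹, ?_, ?_⟩
    · rw [map_mul, map_mul, map_inv]
      exact hP₀n.conj_mem _ hy _
    · simp only [Subgroup.coe_mul, Subgroup.coe_inv, map_mul, map_inv]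
  have hWn : (AI0 ⊔ Z).Normal := Subgroup.sup_normal AI0 Z
  refine ⟨AI0 ⊔ Z, le_sup_left, fun a _ => AUT_top X M a, fun v _ w hw => hWn.conj_mem w hw v,
    ?_, ?_⟩
  · intro w hw
    rw [← SetLike.mem_coe, Subgroup.mul_normal] at hw
    obtain ⟨a, ha, z, hz, rfl⟩ := Set.mem_mul.1 hw
    obtain ⟨t, ht, rfl⟩ := (hZ z).1 hz
    obtain ⟨k, hk⟩ := hP₀ ⟨τ t, ht⟩
    refine ⟨k, ?_⟩
    have hk' : τ t ^ p ^ k = 1 := congrArg Subtype.val hk
    have h1 : (X.proj (t : E)) ^ p ^ k ∈ AI0 := by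
      apply Subgroup.subset_closure
      refine ⟨(t : E) ^ p ^ k, map_pow _ _ _, ?_⟩
      apply hPRI G E A X p M hM hpM S
      intro s hs
      have h2 : ((τ (t ^ p ^ k) ⟨s, hs⟩ : S) : G) = X.act ((t : E) ^ p ^ k) s := hτ _ _
      rw [← h2, map_pow, hk']
      rfl
    rw [← QuotientGroup.eq_one_iff, QuotientGroup.mk_pow, QuotientGroup.mk_mul,
      (QuotientGroup.eq_one_iff a).2 ha, one_mul, ← QuotientGroup.mk_pow,
      (QuotientGroup.eq_one_iff _).2 h1]
  · have : Finite (MulAut S) := inferInstance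
    obtain ⟨-, r, hr⟩ := hB0.2.1 (MulAut S) P₀ τ.range hcyc
    obtain ⟨t₀, ht₀⟩ := r.2
    refine ⟨X.proj t₀, AUT_top X M _, fun v _ => ?_⟩
    obtain ⟨t, rfl⟩ := hfr v
    obtain ⟨i, hi⟩ := hr ⟨τ t, t, rfl⟩
    refine ⟨i, Subgroup.mem_sup_right ((hZ _).2 ⟨t₀ ^ i * t, ?_, ?_⟩)⟩
    · have h1 : (r : MulAut S) ^ i * τ t ∈ P₀ := hi
      rw [map_mul, map_zpow, ht₀]
      exact h1
    · simp only [Subgroup.coe_mul, Subgroup.coe_zpow, map_mul, map_zpow]

end Pool.Agent.BQ
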