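import Pool.Agent.helper7.BQ.Spec

/-! Row bq:BD2: the window function and its Gaussian smoothing. -/

set_option autoImplicit false

namespace Pool.Agent.BQ

open Finset MeasureTheory
open Pool.Agent.CH (ph)

theorem BD2_count (S : Finset ℕ) (a b : ℝ) (hab : a ≤ b) (hS : ∀ y ∈ S, a ≤ (y : ℝ) ∧ (y : ℝ) < b) :
    (S.card : ℝ) ≤ b - a + 1 := by
  have hsub : S ⊆ Ico ⌈a⌉₊ ⌈b⌉₊ := by
    intro y hy
    obtain ⟨h1, h2⟩ := hS y hy
    rw [Finset.mem_Ico]
    exact ⟨Nat.ceil_le.mpr h1, Nat.lt_ceil.mpr h2⟩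
  have h1 := card_le_card hsub
  rw [Nat.card_Ico] at h1
  have h2 : (S.card : ℝ) ≤ ((⌈b⌉₊ - ⌈a⌉₊ : ℕ) : ℝ) := by exact_mod_cast h1
  refine h2.trans ?_
  rcases le_total ⌈a⌉₊ ⌈b⌉₊ with h | h
  · rw [Nat.cast_sub h]
    have h3 := Nat.le_ceil a
    rcases le_or_gt 0 b with hb | hb
    · have h4 := Nat.ceil_lt_add_one hb
      linarith
    · have h4 : ⌈b⌉₊ = 0 := Nat.ceil_eq_zero.mpr hb.le
      rw [h4] at h ⊢
      have h5 : ⌈a⌉₊ = 0 := by omega
      rw [h5]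
      simp only [Nat.cast_zero]
      linarith
  · rw [Nat.sub_eq_zero_of_le h]
    simp only [Nat.cast_zero]
    linarith

theorem BD2_GG (Y B : ℕ) (c : ℕ → ℝ) (v : ℝ) (hY : 1 ≤ Y) : GG Y B c v =
    ∑ y ∈ Ico Y (2 * Y), if (y : ℝ) < Real.exp v ∧ Real.exp v ≤ (y : ℝ) + B then c y else 0 := by
  unfold GG
  apply Finset.sum_congr rfl
  intro y hy
  have hy1 : 1 ≤ y := hY.trans (Finset.mem_Ico.mp hy).1
  have hy0 : (0 : ℝ) < y := by exact_mod_cast hy1
  have hyB : (0 : ℝ) < (y : ℝ) + B := by positivity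
  have e1 : Real.log y < v ↔ (y : ℝ) < Real.exp v := Real.log_lt_iff_lt_exp hy0
  have e2 : v ≤ Real.log ((y : ℝ) + B) ↔ Real.exp v ≤ (y : ℝ) + B :=
    Real.le_log_iff_exp_le hyB
  by_cases h : (y : ℝ) < Real.exp v ∧ Real.exp v ≤ (y : ℝ) + B
  · rw [if_pos h, Set.indicator_of_mem (Set.mem_Ioc.mpr ⟨e1.mpr h.1, e2.mpr h.2⟩)]
  · rw [if_neg h, Set.indicator_of_notMem]
    intro hv
    rw [Set.mem_Ioc] at hv
    exact h ⟨e1.mp hv.1, e2.mp hv.2⟩

theorem BD2_lip1 (Y B : ℕ) (c : ℕ → ℝ) (v w : ℝ) (hY : 1 ≤ Y) (hc : ∀ n, |c n| ≤ 1)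
    (hwv : w ≤ v) :
    |GG Y B c v - GG Y B c w| ≤ 2 * (Real.exp v - Real.exp w + 1) := by
  have hexp : Real.exp w ≤ Real.exp v := Real.exp_le_exp.mpr hwv
  rw [BD2_GG Y B c v hY, BD2_GG Y B c w hY, ← Finset.sum_sub_distrib]
  have hterm : ∀ y ∈ Ico Y (2 * Y),
      |(if (y : ℝ) < Real.exp v ∧ Real.exp v ≤ (y : ℝ) + B then c y else 0) -
        (if (y : ℝ) < Real.exp w ∧ Real.exp w ≤ (y : ℝ) + B then c y else 0)| ≤
      (if (Real.exp w ≤ (y : ℝ) ∧ (y : ℝ) < Real.exp v) then (1 : ℝ) else 0) +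
        (if (Real.exp w - B ≤ (y : ℝ) ∧ (y : ℝ) < Real.exp v - B) then (1 : ℝ) else 0) := by
    intro y _
    have hcy := hc y
    by_cases h1 : (y : ℝ) < Real.exp v ∧ Real.exp v ≤ (y : ℝ) + B
    · by_cases h2 : (y : ℝ) < Real.exp w ∧ Real.exp w ≤ (y : ℝ) + B
      · rw [if_pos h1, if_pos h2, sub_self, abs_zero]
        split_ifs <;> norm_num
      · rw [if_pos h1, if_neg h2, sub_zero]
        have h3 : Real.exp w ≤ (y : ℝ) ∧ (y : ℝ) < Real.exp v := by
          refine ⟨?_, h1.1⟩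
          by_contra hlt
          rw [not_le] at hlt
          exact h2 ⟨hlt, hexp.trans h1.2⟩
        rw [if_pos h3]
        split_ifs <;> linarith
    · by_cases h2 : (y : ℝ) < Real.exp w ∧ Real.exp w ≤ (y : ℝ) + B
      · rw [if_neg h1, if_pos h2, zero_sub, abs_neg]
        have h3 : Real.exp w - B ≤ (y : ℝ) ∧ (y : ℝ) < Real.exp v - B := by
          refine ⟨by linarith [h2.2], ?_⟩
          by_contra hlt
          rw [not_lt] at hlt
          exact h1 ⟨h2.1.trans_le hexp, by linarith⟩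
        rw [if_pos h3]
        split_ifs <;> linarith
      · rw [if_neg h1, if_neg h2, sub_self, abs_zero]
        split_ifs <;> norm_num
  refine (Finset.abs_sum_le_sum_abs _ _).trans ((Finset.sum_le_sum hterm).trans ?_)
  rw [Finset.sum_add_distrib, Finset.sum_boole, Finset.sum_boole]
  have k1 := BD2_count ((Ico Y (2 * Y)).filter
    (fun y : ℕ => Real.exp w ≤ (y : ℝ) ∧ (y : ℝ) < Real.exp v)) (Real.exp w) (Real.exp v) hexp
    (fun y hy => (Finset.mem_filter.mp hy).2)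
  have k2 := BD2_count ((Ico Y (2 * Y)).filter
    (fun y : ℕ => Real.exp w - B ≤ (y : ℝ) ∧ (y : ℝ) < Real.exp v - B)) (Real.exp w - B)
    (Real.exp v - B) (by linarith) (fun y hy => (Finset.mem_filter.mp hy).2)
  linarith

theorem BD2_lip (Y B : ℕ) (c : ℕ → ℝ) (v w : ℝ) (hY : 1 ≤ Y) (hc : ∀ n, |c n| ≤ 1) :
    |GG Y B c v - GG Y B c w| ≤ 2 * (|Real.exp v - Real.exp w| + 1) := by
  rcases le_total w v with h | h
  · refine (BD2_lip1 Y B c v w hY hc h).trans ?_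
    linarith [le_abs_self (Real.exp v - Real.exp w)]
  · rw [abs_sub_comm, abs_sub_comm (Real.exp v)]
    refine (BD2_lip1 Y B c w v hY hc h).trans ?_
    linarith [le_abs_self (Real.exp w - Real.exp v)]

theorem BD2_gauss (s : ℝ) (hs : 0 < s) (v : ℝ) :
    Integrable (fun w : ℝ => Real.exp (-((v - w) ^ 2) / s)) ∧
      ∫ w : ℝ, Real.exp (-((v - w) ^ 2) / s) = √(Real.pi * s) := by
  have e : ∀ u : ℝ, Real.exp (-(u ^ 2) / s) = Real.exp (-(1 / s) * u ^ 2) := by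
    intro u
    congr 1
    field_simp
  have h := integrable_exp_neg_mul_sq (b := 1 / s) (by positivity)
  have h2 := integral_gaussian (1 / s)
  have h1 : Integrable (fun u : ℝ => Real.exp (-(u ^ 2) / s)) := by
    simp only [e]
    exact h
  constructor
  · exact h1.comp_sub_left v
  · have h3 := integral_sub_left_eq_self (fun u : ℝ => Real.exp (-(u ^ 2) / s)) volume v
    rw [h3]
    simp only [e]
    rw [h2]
    congr 1
    field_simp

theorem BD2_ph (δ : ℝ) (hδ : 0 < δ) (v : ℝ) :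
    Integrable (fun w : ℝ => ph δ (v - w)) ∧ ∫ w : ℝ, ph δ (v - w) = 1 := by
  obtain ⟨h1, h2⟩ := BD2_gauss (2 * δ ^ 2) (by positivity) v
  unfold ph
  refine ⟨h1.div_const _, ?_⟩
  rw [integral_div, h2]
  have e : √(Real.pi * (2 * δ ^ 2)) = δ * √(2 * Real.pi) := by
    rw [show Real.pi * (2 * δ ^ 2) = δ ^ 2 * (2 * Real.pi) by ring, Real.sqrt_mul (by positivity),
      Real.sqrt_sq hδ.le]
  rw [e, div_self]
  have := Real.pi_pos
  positivity

theorem BD2_exp1 (u : ℝ) : |Real.exp u - 1| ≤ |u| * Real.exp |u| := by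
  rcases le_total 0 u with h | h
  · rw [abs_of_nonneg h, abs_of_nonneg (by linarith [Real.add_one_le_exp u])]
    have h1 := Real.add_one_le_exp (-u)
    have h2 : Real.exp (-u) * Real.exp u = 1 := by rw [← Real.exp_add]; simp
    have h3 : (-u + 1) * Real.exp u ≤ Real.exp (-u) * Real.exp u :=
      mul_le_mul_of_nonneg_right h1 (Real.exp_pos u).le
    rw [h2] at h3
    linarith
  · rw [abs_of_nonpos h, abs_of_nonpos (by linarith [Real.exp_le_one_iff.mpr h])]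
    have h1 := Real.add_one_le_exp u
    have h2 : 1 ≤ Real.exp (-u) := Real.one_le_exp (by linarith)
    have h3 : -u * 1 ≤ -u * Real.exp (-u) := mul_le_mul_of_nonneg_left h2 (by linarith)
    linarith

/-- the pointwise estimate for the Gaussian -/
theorem BD2_pt (δ u : ℝ) (hδ : 0 < δ) (hδ1 : δ ≤ 1) :
    |Real.exp u - 1| * Real.exp (-(u ^ 2) / (2 * δ ^ 2)) ≤
      δ * Real.exp 4 * Real.exp (-(u ^ 2) / (4 * δ ^ 2)) := by
  obtain ⟨s, hs⟩ : ∃ s : ℝ, s = |u| / δ := ⟨_, rfl⟩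
  have hs0 : 0 ≤ s := by rw [hs]; positivity
  have hu : |u| = δ * s := by rw [hs]; field_simp
  have hu2 : u ^ 2 = (δ * s) ^ 2 := by rw [← hu, sq_abs]
  have h1 := BD2_exp1 u
  have h2 : |u| * Real.exp |u| ≤ δ * (Real.exp s * Real.exp s) := by
    rw [hu, mul_assoc]
    apply mul_le_mul_of_nonneg_left _ hδ.le
    apply mul_le_mul
    · linarith [Real.add_one_le_exp s]
    · apply Real.exp_le_exp.mpr
      nlinarith
    · positivity
    · positivity
  have e1 : -(u ^ 2) / (2 * δ ^ 2) = -(s ^ 2) / 4 + -(s ^ 2) / 4 := by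
    rw [hu2]; field_simp; ring
  have e2 : -(u ^ 2) / (4 * δ ^ 2) = -(s ^ 2) / 4 := by
    rw [hu2]; field_simp
  rw [e1, e2, Real.exp_add]
  have h3 : Real.exp s * Real.exp s * Real.exp (-(s ^ 2) / 4) ≤ Real.exp 4 := by
    rw [← Real.exp_add, ← Real.exp_add]
    apply Real.exp_le_exp.mpr
    nlinarith [sq_nonneg (s / 2 - 2)]
  have h4 : 0 < Real.exp (-(s ^ 2) / 4) := Real.exp_pos _
  calc |Real.exp u - 1| * (Real.exp (-(s ^ 2) / 4) * Real.exp (-(s ^ 2) / 4))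
      ≤ (δ * (Real.exp s * Real.exp s)) * (Real.exp (-(s ^ 2) / 4) * Real.exp (-(s ^ 2) / 4)) :=
        mul_le_mul_of_nonneg_right (h1.trans h2) (by positivity)
    _ = δ * (Real.exp s * Real.exp s * Real.exp (-(s ^ 2) / 4)) * Real.exp (-(s ^ 2) / 4) := by
        ring
    _ ≤ δ * Real.exp 4 * Real.exp (-(s ^ 2) / 4) := by
        apply mul_le_mul_of_nonneg_right _ h4.le
        exact mul_le_mul_of_nonneg_left h3 hδ.le

theorem BD2 (h1 : GGB_stmt) : BD2_stmt := by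
  obtain ⟨b1, b2, -, -, -⟩ := h1
  refine ⟨256 * Real.exp 4, by positivity, ?_⟩
  intro Y B c δ hY hBY hc hδ hδ1 j hj
  rw [Finset.mem_Ioc] at hj
  have hj0 : (0 : ℝ) < j := by exact_mod_cast hj.1
  have hjY : (j : ℝ) ≤ 64 * Y := by exact_mod_cast hj.2
  have hY1 : (1 : ℝ) ≤ Y := by exact_mod_cast hY
  rw [b1 Y B c j hY (by omega)]
  obtain ⟨v, hv⟩ : ∃ v : ℝ, v = Real.log j := ⟨_, rfl⟩
  have hexpv : Real.exp v = j := by rw [hv, Real.exp_log hj0]
  rw [← hv]
  obtain ⟨hGb, -, hI⟩ := b2 Y B c hY hBY hc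
  obtain ⟨p1, p2⟩ := BD2_ph δ hδ v
  obtain ⟨g1, g2⟩ := BD2_gauss (4 * δ ^ 2) (by positivity) v
  have hpi := Real.pi_pos
  have hs : 0 < δ * √(2 * Real.pi) := by positivity
  have hmul : Integrable (fun w : ℝ => GG Y B c w * ph δ (v - w)) :=
    p1.bdd_mul (c := (B : ℝ)) hI.aestronglyMeasurable (Filter.Eventually.of_forall fun w => hGb w)
  have hconst : Integrable (fun w : ℝ => GG Y B c v * ph δ (v - w)) := p1.const_mul _
  have heq : GG Y B c v - Gs Y B c δ v = ∫ w : ℝ, (GG Y B c v - GG Y B c w) * ph δ (v - w) := by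
    have : ∫ w : ℝ, (GG Y B c v - GG Y B c w) * ph δ (v - w) =
        ∫ w : ℝ, (GG Y B c v * ph δ (v - w) - GG Y B c w * ph δ (v - w)) := by
      congr 1
      funext w
      ring
    rw [this, integral_sub hconst hmul, integral_const_mul, p2, mul_one]
    rfl
  obtain ⟨K, hK⟩ : ∃ K : ℝ, K = 128 * Y * (δ * Real.exp 4) / (δ * √(2 * Real.pi)) := ⟨_, rfl⟩
  have hbd : ∀ w : ℝ, ‖(GG Y B c v - GG Y B c w) * ph δ (v - w)‖ ≤
      K * Real.exp (-((v - w) ^ 2) / (4 * δ ^ 2)) + 2 * ph δ (v - w) := by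
    intro w
    have hph0 : 0 ≤ ph δ (v - w) := by
      unfold ph
      positivity
    rw [norm_mul, Real.norm_eq_abs, Real.norm_eq_abs, abs_of_nonneg hph0]
    have h2 := BD2_lip Y B c v w hY hc
    have h3 : |Real.exp v - Real.exp w| ≤ 64 * Y * |Real.exp (w - v) - 1| := by
      have e1 : Real.exp v - Real.exp w = -(Real.exp v * (Real.exp (w - v) - 1)) := by
        rw [mul_sub, ← Real.exp_add]
        ring_nf
      rw [e1, abs_neg, abs_mul, hexpv, abs_of_pos hj0]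
      exact mul_le_mul_of_nonneg_right hjY (abs_nonneg _)
    have h4 := BD2_pt δ (w - v) hδ hδ1
    have e2 : (w - v) ^ 2 = (v - w) ^ 2 := by ring
    rw [e2] at h4
    have h5 : |Real.exp (w - v) - 1| * ph δ (v - w) ≤
        δ * Real.exp 4 * Real.exp (-((v - w) ^ 2) / (4 * δ ^ 2)) / (δ * √(2 * Real.pi)) := by
      unfold ph
      rw [← mul_div_assoc]
      exact div_le_div_of_nonneg_right h4 hs.le
    calc |GG Y B c v - GG Y B c w| * ph δ (v - w)
        ≤ (2 * (64 * Y * |Real.exp (w - v) - 1| + 1)) * ph δ (v - w) := by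
          apply mul_le_mul_of_nonneg_right _ hph0
          linarith
      _ = 128 * Y * (|Real.exp (w - v) - 1| * ph δ (v - w)) + 2 * ph δ (v - w) := by ring
      _ ≤ 128 * Y * (δ * Real.exp 4 * Real.exp (-((v - w) ^ 2) / (4 * δ ^ 2)) /
            (δ * √(2 * Real.pi))) + 2 * ph δ (v - w) := by
          have := mul_le_mul_of_nonneg_left h5 (by positivity : (0 : ℝ) ≤ 128 * Y)
          linarith
      _ = K * Real.exp (-((v - w) ^ 2) / (4 * δ ^ 2)) + 2 * ph δ (v - w) := by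
          rw [hK]
          ring
  rw [heq]
  have h7 := norm_integral_le_of_norm_le ((g1.const_mul K).add (p1.const_mul 2))
    (Filter.Eventually.of_forall hbd)
  have e3 : ∫ w : ℝ, (fun w => K * Real.exp (-((v - w) ^ 2) / (4 * δ ^ 2)) + 2 * ph δ (v - w)) w
      = K * √(Real.pi * (4 * δ ^ 2)) + 2 := by
    have e4 := integral_add (g1.const_mul K) (p1.const_mul 2)
    rw [integral_const_mul, integral_const_mul, g2, p2, mul_one] at e4
    exact e4
  have h8 : ‖∫ w : ℝ, (GG Y B c v - GG Y B c w) * ph δ (v - w)‖ ≤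
      K * √(Real.pi * (4 * δ ^ 2)) + 2 := by
    rw [← e3]
    exact h7
  rw [Real.norm_eq_abs] at h8
  refine h8.trans ?_
  have e5 : √(Real.pi * (4 * δ ^ 2)) = √2 * (δ * √(2 * Real.pi)) := by
    rw [show Real.pi * (4 * δ ^ 2) = 2 * (δ ^ 2 * (2 * Real.pi)) by ring,
      Real.sqrt_mul (by norm_num), Real.sqrt_mul (by positivity), Real.sqrt_sq hδ.le]
  have e6 : K * √(Real.pi * (4 * δ ^ 2)) = 128 * Y * (δ * Real.exp 4) * √2 := by
    rw [e5, hK]
    field_simp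
  rw [e6]
  have h9 : √2 ≤ 2 := by
    rw [Real.sqrt_le_left (by norm_num)]
    norm_num
  have h10 : 128 * Y * (δ * Real.exp 4) * √2 ≤ 128 * Y * (δ * Real.exp 4) * 2 :=
    mul_le_mul_of_nonneg_left h9 (by positivity)
  have h11 : (1 : ℝ) ≤ Real.exp 4 := Real.one_le_exp (by norm_num)
  nlinarith [h10, h11]

end Pool.Agent.BQ
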